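import Mathlib
import Pool.Agent.V11120.Maps.Basic
import Pool.Agent.V11120.Maps.Turan

/-!
# Large non-separating independent sets in the dual graph of a reduced link diagram
-/

set_option autoImplicit false
set_option linter.unusedVariables false

namespace Pool.Agent.Results.MP_1d20a2_co.LargeSet

open Equiv Finset

/-- The number of orbits (cycles, fixed points included) of a permutation. -/
noncomputable def numOrbits {D : Type} (σ : Perm D) : ℕ :=
  Nat.card (Quotient (Perm.SameCycle.setoid σ))

/-- The projection of a non-split link diagram on the sphere with at least one crossing: a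
connected plane graph, loops and multiple edges allowed, all of whose vertices have degree four.
It is given by its darts (half-edges): `rot d` is the dart following `d` counterclockwise around
the crossing at which `d` starts, and `rev d` is the other half of the edge of `d`.
The crossings are the orbits of `rot`, the edges are the orbits of `rev` and the regions are the
orbits of `rot * rev`. -/
structure Diagram where
  /-- the darts -/
  D : Type
  /-- there are finitely many darts -/
  fin : Fintype D
  /-- the next dart counterclockwise around the same crossing -/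
  rot : Perm D
  /-- the reversed dart -/
  rev : Perm D
  rev_rev : ∀ d, rev (rev d) = d
  rev_ne : ∀ d, rev d ≠ d
  /-- every crossing has exactly four darts -/
  four : ∀ d, rot (rot (rot (rot d))) = d
  four_ne : ∀ d, rot (rot d) ≠ d
  /-- the projection is connected -/
  conn : ∀ s : Set D, s.Nonempty → (∀ d ∈ s, rot d ∈ s ∧ rev d ∈ s) → s = Set.univ
  /-- the surface is a sphere: crossings - edges + regions = 2 -/
  sphere : (numOrbits rot : ℤ) - numOrbits rev + numOrbits (rot * rev) = 2

namespace Diagram

variable (L : Diagram)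

/-- The number of crossings. -/
noncomputable def crossings : ℕ := numOrbits L.rot

/-- The complementary regions of the diagram. -/
def Region : Type := Quotient (Perm.SameCycle.setoid (L.rot * L.rev))

/-- The region to the right of the dart `d`. -/
def region (d : L.D) : L.Region := Quotient.mk _ d

/-- The crossing at which the dart `d` starts is nugatory, that is, a cut vertex: the edges can be
divided into two nonempty classes such that at every other crossing all four edge ends belong to
one class. -/
def Nugatory (d : L.D) : Prop :=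
  ∃ A : Set L.D, A.Nonempty ∧ A ≠ Set.univ ∧ (∀ e ∈ A, L.rev e ∈ A) ∧
    ∀ e ∈ A, ¬ L.rot.SameCycle d e → L.rot e ∈ A

/-- The diagram is reduced: it has no nugatory crossing. -/
def Reduced : Prop := ∀ d, ¬ L.Nugatory d

/-- The dual graph: two different regions are adjacent if they lie on the two sides of an edge. -/
def dual : SimpleGraph L.Region where
  Adj x y := x ≠ y ∧ ∃ d, L.region d = x ∧ L.region (L.rev d) = y
  symm := ⟨by
    rintro x y ⟨h, d, hx, hy⟩
    exact ⟨h.symm, L.rev d, hy, by rw [L.rev_rev]; exact hx⟩⟩
  loopless := ⟨fun x h => h.1 rfl⟩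

end Diagram

/-! ## Proof -/

namespace Proof

open Diagram

variable (L : Diagram)

noncomputable instance : Fintype L.D := L.fin
noncomputable instance : DecidableEq L.D := Classical.decEq _
noncomputable instance : DecidableEq L.Region := Classical.decEq _
noncomputable instance : Fintype L.Region :=
  haveI : Finite L.Region := inferInstanceAs (Finite (Quotient _))
  Fintype.ofFinite _

theorem region_face (d : L.D) : L.region (L.rot (L.rev d)) = L.region d := by
  apply Quotient.sound
  exact Perm.SameCycle.symm (Perm.sameCycle_apply_right.2 (Perm.SameCycle.refl (L.rot * L.rev) d))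

theorem region_rev (d : L.D) : L.region (L.rev d) = L.region (L.rot d) := by
  have := region_face L (L.rev d)
  rw [L.rev_rev] at this
  exact this.symm

variable {L}

theorem region_ne (hL : L.Reduced) {a b : L.D} (hab : a ≠ b) (h : L.rot.SameCycle a b) :
    L.region a ≠ L.region b := by
  intro h2
  have h3 : (L.rot * L.rev).SameCycle a b := Quotient.exact h2
  apply hL a
  refine Pool.Agent.V11120.Maps.exists_cut L.rev_rev L.rev_ne ?_ hab h h3
  have := L.sphere
  simp only [numOrbits] at this
  simp only [Pool.Agent.V11120.Maps.numOrbits]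
  omega

theorem rot_ne (d : L.D) : L.rot d ≠ d := by
  intro h
  have := L.four_ne d
  rw [h] at this
  exact this h

theorem rot3_ne (d : L.D) : L.rot (L.rot (L.rot d)) ≠ d := by
  intro h
  have := L.four d
  rw [h] at this
  exact rot_ne d this

theorem sc1 (d : L.D) : L.rot.SameCycle d (L.rot d) :=
  Perm.sameCycle_apply_right.2 (Perm.SameCycle.refl _ _)

theorem sc2 (d : L.D) : L.rot.SameCycle d (L.rot (L.rot d)) :=
  Perm.sameCycle_apply_right.2 (sc1 d)

theorem sc3 (d : L.D) : L.rot.SameCycle d (L.rot (L.rot (L.rot d))) :=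
  Perm.sameCycle_apply_right.2 (sc2 d)

theorem sameCycle_iff (d e : L.D) : L.rot.SameCycle d e ↔
    e = d ∨ e = L.rot d ∨ e = L.rot (L.rot d) ∨ e = L.rot (L.rot (L.rot d)) := by
  constructor
  · intro h
    have := Pool.Agent.V11120.Maps.mem_of_sameCycle
      (T := {x | x = d ∨ x = L.rot d ∨ x = L.rot (L.rot d) ∨ x = L.rot (L.rot (L.rot d))}) (by
        rintro x (rfl | rfl | rfl | rfl)
        · simp
        · simp
        · simp
        · left; exact L.four d) (Or.inl rfl) h
    exact this
  · rintro (rfl | rfl | rfl | rfl)
    · exact Perm.SameCycle.refl _ _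
    · exact sc1 d
    · exact sc2 d
    · exact sc3 d

/-- Two regions are joined if they share a crossing. -/
def share (L : Diagram) : SimpleGraph L.Region where
  Adj x y := x ≠ y ∧ ∃ a b, L.rot.SameCycle a b ∧ L.region a = x ∧ L.region b = y
  symm := ⟨by
    rintro x y ⟨h, a, b, hab, hx, hy⟩
    exact ⟨h.symm, b, a, hab.symm, hy, hx⟩⟩
  loopless := ⟨fun x h => h.1 rfl⟩

theorem dual_le_share : L.dual ≤ share L := by
  rintro x y ⟨h, d, hx, hy⟩
  refine ⟨h, d, L.rot d, sc1 d, hx, ?_⟩
  rw [← region_rev, hy]

section conn

variable (hL : L.Reduced) {S : Set L.Region} (hS : (share L).IsIndepSet S)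

include hL hS

theorem notMem {a b : L.D} (hab : a ≠ b) (h : L.rot.SameCycle a b) (ha : L.region a ∈ S) :
    L.region b ∉ S := by
  intro hb
  have h1 := region_ne hL hab h
  exact hS ha hb h1 ⟨h1, a, b, h, rfl, rfl⟩

omit hS in
theorem step (d : L.D) (h1 : L.region d ∈ Sᶜ) (h2 : L.region (L.rot d) ∈ Sᶜ) :
    (L.dual.induce Sᶜ).Reachable ⟨L.region d, h1⟩ ⟨L.region (L.rot d), h2⟩ := by
  apply SimpleGraph.Adj.reachable
  rw [SimpleGraph.comap_adj]
  exact ⟨region_ne hL (rot_ne d).symm (sc1 d), d, rfl, region_rev L d⟩

theorem two_steps (d : L.D) (h : L.region (L.rot d) ∈ S) (h1 : L.region d ∈ Sᶜ)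
    (h2 : L.region (L.rot (L.rot d)) ∈ Sᶜ) :
    (L.dual.induce Sᶜ).Reachable ⟨L.region d, h1⟩ ⟨L.region (L.rot (L.rot d)), h2⟩ := by
  have h3 : L.region (L.rot (L.rot (L.rot d))) ∈ Sᶜ :=
    notMem hL hS (a := L.rot d) (L.four_ne (L.rot d)).symm (sc2 (L.rot d)) h
  have s1 := step hL (L.rot (L.rot d)) h2 h3
  have s2 := step hL (L.rot (L.rot (L.rot d))) h3 (by rw [L.four]; exact h1)
  have s3 := s1.trans s2
  simp only [L.four] at s3
  exact s3.symm

/-- a region outside `S` at the dart `d` -/
theorem exists_R (d : L.D) : ∃ x : (Sᶜ : Set L.Region), (L.region d ∈ S → x.1 = L.region (L.rot d)) ∧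
    (L.region d ∉ S → x.1 = L.region d) := by
  by_cases h : L.region d ∈ S
  · exact ⟨⟨L.region (L.rot d), notMem hL hS (rot_ne d).symm (sc1 d) h⟩, fun _ => rfl,
      fun h' => absurd h h'⟩
  · exact ⟨⟨L.region d, h⟩, fun h' => absurd h' h, fun _ => rfl⟩

theorem connected : (L.dual.induce Sᶜ).Connected := by
  classical
  choose R hR1 hR2 using exists_R hL hS
  have hrot : ∀ d, (L.dual.induce Sᶜ).Reachable (R d) (R (L.rot d)) := by
    intro d
    by_cases h1 : L.region d ∈ S
    · have h2 : L.region (L.rot d) ∉ S := notMem hL hS (rot_ne d).symm (sc1 d) h1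
      have : R d = R (L.rot d) := Subtype.ext ((hR1 d h1).trans (hR2 _ h2).symm)
      rw [this]
    · by_cases h2 : L.region (L.rot d) ∈ S
      · have h3 : L.region (L.rot (L.rot d)) ∉ S := notMem hL hS (rot_ne _).symm (sc1 _) h2
        have e1 : R d = ⟨L.region d, h1⟩ := Subtype.ext (hR2 d h1)
        have e2 : R (L.rot d) = ⟨L.region (L.rot (L.rot d)), h3⟩ := Subtype.ext (hR1 _ h2)
        rw [e1, e2]
        exact two_steps hL hS d h2 h1 h3
      · have e1 : R d = ⟨L.region d, h1⟩ := Subtype.ext (hR2 d h1)
        have e2 : R (L.rot d) = ⟨L.region (L.rot d), h2⟩ := Subtype.ext (hR2 _ h2)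
        rw [e1, e2]
        exact step hL d h1 h2
  have hrev : ∀ d, (L.dual.induce Sᶜ).Reachable (R d) (R (L.rev d)) := by
    intro d
    refine (hrot d).trans ?_
    by_cases h1 : L.region (L.rot d) ∈ S
    · have h1' : L.region (L.rev d) ∈ S := by rw [region_rev]; exact h1
      have h2 : L.region d ∉ S := by
        intro h
        exact notMem hL hS (rot_ne d).symm (sc1 d) h h1
      have h3 : L.region (L.rot (L.rot d)) ∉ S := notMem hL hS (rot_ne _).symm (sc1 _) h1
      have e1 : R (L.rot d) = ⟨L.region (L.rot (L.rot d)), h3⟩ := Subtype.ext (hR1 _ h1)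
      have e2 : R (L.rev d) = ⟨L.region d, h2⟩ :=
        Subtype.ext ((hR1 _ h1').trans (region_face L d))
      rw [e1, e2]
      exact (two_steps hL hS d h1 h2 h3).symm
    · have h1' : L.region (L.rev d) ∉ S := by rw [region_rev]; exact h1
      have : R (L.rot d) = R (L.rev d) := by
        apply Subtype.ext
        rw [hR2 _ h1, hR2 _ h1', region_rev]
      rw [this]
  haveI : Nonempty L.D := by
    by_contra hemp
    rw [not_nonempty_iff] at hemp
    have hz : ∀ σ : Perm L.D, numOrbits σ = 0 := by
      intro σ
      unfold numOrbits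
      haveI : IsEmpty (Quotient (Perm.SameCycle.setoid σ)) :=
        ⟨fun q => by
          induction q using Quotient.ind with
          | _ d => exact hemp.false d⟩
      exact Nat.card_of_isEmpty
    have := L.sphere
    rw [hz, hz, hz] at this
    norm_num at this
  obtain ⟨d0⟩ := this
  have hall : ∀ d, (L.dual.induce Sᶜ).Reachable (R d0) (R d) := by
    intro d
    have := L.conn {d | (L.dual.induce Sᶜ).Reachable (R d0) (R d)} ⟨d0, SimpleGraph.Reachable.refl _⟩
      (fun d hd => ⟨SimpleGraph.Reachable.trans hd (hrot d), SimpleGraph.Reachable.trans hd (hrev d)⟩)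
    have h2 : d ∈ {d | (L.dual.induce Sᶜ).Reachable (R d0) (R d)} := by rw [this]; trivial
    exact h2
  have hsurj : ∀ x : (Sᶜ : Set L.Region), ∃ d, R d = x := by
    rintro ⟨x, hx⟩
    induction x using Quotient.ind with
    | _ d => exact ⟨d, Subtype.ext (hR2 d hx)⟩
  haveI : Nonempty (Sᶜ : Set L.Region) := ⟨R d0⟩
  refine ⟨fun x y => ?_⟩
  obtain ⟨a, rfl⟩ := hsurj x
  obtain ⟨b, rfl⟩ := hsurj y
  exact (hall a).symm.trans (hall b)

end conn

/-! ### Counting -/

theorem image_card {D X : Type} [Fintype D] [DecidableEq D] [DecidableEq X] (f : D → X)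
    (τ : D → D) (hne : ∀ d, τ d ≠ d) (hf : ∀ d, f (τ d) = f d) :
    2 * #(univ.image f) ≤ Fintype.card D := by
  rw [← card_univ, mul_comm]
  have : ∀ x ∈ univ.image f, 2 ≤ #(univ.filter fun d => f d = x) := by
    intro x hx
    obtain ⟨d, _, rfl⟩ := mem_image.1 hx
    have h2 : ({d, τ d} : Finset D) ⊆ univ.filter fun e => f e = f d := by
      intro e he
      rw [mem_insert, mem_singleton] at he
      rw [mem_filter]
      rcases he with rfl | rfl
      · exact ⟨mem_univ _, rfl⟩
      · exact ⟨mem_univ _, hf d⟩
    calc 2 = #({d, τ d} : Finset D) := (card_pair (hne d).symm).symm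
      _ ≤ _ := card_le_card h2
  calc #(univ.image f) * 2 = ∑ x ∈ univ.image f, 2 := by simp
    _ ≤ ∑ x ∈ univ.image f, #(univ.filter fun d => f d = x) := sum_le_sum this
    _ = #(univ : Finset D) := (card_eq_sum_card_fiberwise (fun d _ => mem_image_of_mem f
        (mem_univ d))).symm

theorem card_darts (L : Diagram) : Fintype.card L.D = 4 * L.crossings := by
  classical
  haveI : Fintype (Quotient (Perm.SameCycle.setoid L.rot)) := Fintype.ofFinite _
  rw [crossings, numOrbits, Nat.card_eq_fintype_card]
  have h2 : ∀ q : Quotient (Perm.SameCycle.setoid L.rot),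
      (Finset.univ.filter fun d : L.D =>
        (Quotient.mk _ d : Quotient (Perm.SameCycle.setoid L.rot)) = q).card = 4 := by
    intro q
    induction q using Quotient.ind with
    | _ a =>
      have : (Finset.univ.filter fun d : L.D =>
          (Quotient.mk _ d : Quotient (Perm.SameCycle.setoid L.rot)) = Quotient.mk _ a) =
          {a, L.rot a, L.rot (L.rot a), L.rot (L.rot (L.rot a))} := by
        ext d
        simp only [Finset.mem_filter, Finset.mem_univ, true_and, Finset.mem_insert,
          Finset.mem_singleton]
        rw [Quotient.eq, ← sameCycle_iff]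
        exact ⟨fun h => Perm.SameCycle.symm h, fun h => Perm.SameCycle.symm h⟩
      rw [this]
      have n1 : ∀ d : L.D, d ≠ L.rot d := fun d => (rot_ne d).symm
      have n2 : ∀ d : L.D, d ≠ L.rot (L.rot d) := fun d => (L.four_ne d).symm
      have n3 : ∀ d : L.D, d ≠ L.rot (L.rot (L.rot d)) := fun d => (rot3_ne d).symm
      rw [card_insert_of_notMem, card_insert_of_notMem, card_pair (n1 _)]
      · simp only [mem_insert, mem_singleton, not_or]
        exact ⟨n1 _, n2 _⟩
      · simp only [mem_insert, mem_singleton, not_or]
        exact ⟨n1 _, n2 _, n3 _⟩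
  rw [← Finset.card_univ, Finset.card_eq_sum_card_fiberwise
    (f := fun d => (Quotient.mk _ d : Quotient (Perm.SameCycle.setoid L.rot)))
    (t := Finset.univ) (fun _ _ => Finset.mem_coe.2 (Finset.mem_univ _))]
  rw [Finset.sum_congr rfl (fun q _ => h2 q)]
  simp [mul_comm]

theorem card_region (L : Diagram) : Fintype.card L.Region = L.crossings + 2 := by
  have h1 := card_darts L
  have h2 := Pool.Agent.V11120.Maps.card_eq_two_mul L.rev_rev L.rev_ne
  have h3 := L.sphere
  have h4 : Fintype.card L.Region = numOrbits (L.rot * L.rev) := by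
    rw [numOrbits, ← Nat.card_eq_fintype_card]
    rfl
  have h5 : Pool.Agent.V11120.Maps.numOrbits L.rev = numOrbits L.rev := rfl
  rw [h5] at h2
  rw [h4]
  have h6 : L.crossings = numOrbits L.rot := rfl
  omega

theorem card_share (L : Diagram) [DecidableRel (share L).Adj] :
    #(share L).edgeFinset ≤ 4 * Fintype.card L.Region := by
  classical
  have h1 := image_card (fun d : L.D => s(L.region d, L.region (L.rot d))) L.rev L.rev_ne (by
    intro d
    show s(L.region (L.rev d), L.region (L.rot (L.rev d))) = _
    rw [region_rev, region_face]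
    exact Sym2.eq_swap)
  have h2 := image_card (fun d : L.D => s(L.region d, L.region (L.rot (L.rot d))))
    (fun d => L.rot (L.rot d)) L.four_ne (by
    intro d
    show s(L.region (L.rot (L.rot d)), L.region (L.rot (L.rot (L.rot (L.rot d))))) = _
    rw [L.four]
    exact Sym2.eq_swap)
  have h3 : (share L).edgeFinset ⊆ univ.image (fun d : L.D => s(L.region d, L.region (L.rot d))) ∪
      univ.image (fun d : L.D => s(L.region d, L.region (L.rot (L.rot d)))) := by
    intro e he
    rw [SimpleGraph.mem_edgeFinset] at he
    induction e using Sym2.ind with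
    | _ x y =>
      rw [SimpleGraph.mem_edgeSet] at he
      obtain ⟨hne, a, b, hab, rfl, rfl⟩ := he
      rw [mem_union, mem_image, mem_image]
      rcases (sameCycle_iff a b).1 hab with rfl | rfl | rfl | rfl
      · exact absurd rfl hne
      · exact Or.inl ⟨a, mem_univ _, rfl⟩
      · exact Or.inr ⟨a, mem_univ _, rfl⟩
      · refine Or.inl ⟨L.rot (L.rot (L.rot a)), mem_univ _, ?_⟩
        rw [L.four]
        exact Sym2.eq_swap
  have h4 := (card_le_card h3).trans (card_union_le _ _)
  have h5 := card_darts L
  have h6 := card_region L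
  omega

end Proof

/-- **Large non-separating independent sets in duals of link diagrams.** For every reduced
non-split link diagram with `n ≥ 1` crossings, the dual graph has an independent set `S` with at
least `(n + 2) / 9` elements whose removal leaves the dual graph connected. -/
theorem result (L : Diagram) (hL : L.Reduced) :
    ∃ S : Set L.Region, L.dual.IsIndepSet S ∧ (L.dual.induce Sᶜ).Connected ∧
      (1 / 9 : ℝ) * (L.crossings + 2) ≤ S.ncard := by
  classical
  obtain ⟨S, hS, hcard⟩ := Pool.Agent.V11120.Maps.exists_indep (Proof.share L) 4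
    (Proof.card_share L)
  refine ⟨S, fun x hx y hy hxy h => hS hx hy hxy (Proof.dual_le_share h),
    Proof.connected hL hS, ?_⟩
  rw [Proof.card_region] at hcard
  rw [Set.ncard_coe_finset]
  have : ((L.crossings + 2 : ℕ) : ℝ) ≤ ((2 * 4 + 1) * #S : ℕ) := by exact_mod_cast hcard
  push_cast at this
  linarith

end Pool.Agent.Results.MP_1d20a2_co.LargeSet
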